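import Pool.Agent.Y262.QE.Stm

/-!
# The forms which belong to the metrics `exp (s h) g`
-/

set_option autoImplicit false

open Set Filter Topology MeasureTheory
open scoped Real ContDiff ComplexConjugate

noncomputable section

namespace Pool.Agent.Y363.QE

open Pool.Agent.Y262.QE

section

variable {M : Type} [MeasurableSpace M] {μ : Measure M}

theorem int_sq (f : Lp ℝ 2 μ) : Integrable (fun x => f x * f x) μ := by
  have h := (Lp.memLp f).integrable_sq
  refine h.congr (Eventually.of_forall fun x => ?_)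
  simp only
  ring

theorem int_w {w : M → ℝ} (hw : Measurable w) {C : ℝ} (hC : ∀ x, |w x| ≤ C) (f : Lp ℝ 2 μ) :
    Integrable (fun x => w x * (f x * f x)) μ :=
  (int_sq f).bdd_mul (c := C) hw.aestronglyMeasurable (Eventually.of_forall fun x => by
    rw [Real.norm_eq_abs]
    exact hC x)

theorem mono_w {w w' : M → ℝ} (hw : Measurable w) {C : ℝ} (hC : ∀ x, |w x| ≤ C)
    (hw' : Measurable w') {C' : ℝ} (hC' : ∀ x, |w' x| ≤ C') (h : ∀ x, w x ≤ w' x) (f : Lp ℝ 2 μ) :
    ∫ x, w x * (f x * f x) ∂μ ≤ ∫ x, w' x * (f x * f x) ∂μ :=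
  integral_mono (int_w hw hC f) (int_w hw' hC' f) fun x =>
    mul_le_mul_of_nonneg_right (h x) (mul_self_nonneg _)

theorem inner_eq (f g : Lp ℝ 2 μ) : inner ℝ f g = ∫ x, f x * g x ∂μ := by
  rw [L2.inner_def]
  refine integral_congr_ae (Eventually.of_forall fun x => ?_)
  simp [mul_comm]

theorem norm_eq (f : Lp ℝ 2 μ) : ‖f‖ ^ 2 = ∫ x, f x * f x ∂μ := by
  rw [← real_inner_self_eq_norm_sq, inner_eq]

end

theorem bs : StMul → StBmp → StBs := by
  intro hMul hBmp M _ _ _ _ μ _ h L H _ _ i a p hL hh h0 hCy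
  -- the bound of `h`
  obtain ⟨K, hK0, hK⟩ : ∃ K : ℝ, 0 ≤ K ∧ ∀ x, h x ≤ K := by
    obtain ⟨K₀, hK₀⟩ := (isCompact_range hh).bddAbove
    exact ⟨max K₀ 0, le_max_right _ _, fun x => (hK₀ (mem_range_self x)).trans (le_max_left _ _)⟩
  have hsh : ∀ s x, |s * h x| ≤ |s| * K := by
    intro s x
    rw [abs_mul, abs_of_nonneg (h0 x)]
    exact mul_le_mul_of_nonneg_left (hK x) (abs_nonneg s)
  have hup : ∀ s x, Real.exp (s * h x) ≤ Real.exp (|s| * K) := fun s x =>
    Real.exp_le_exp.2 ((le_abs_self _).trans (hsh s x))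
  have hlo : ∀ s x, Real.exp (-(|s| * K)) ≤ Real.exp (s * h x) := fun s x =>
    Real.exp_le_exp.2 (neg_le_of_abs_le (hsh s x))
  have hwm : ∀ s : ℝ, Measurable fun x => Real.exp (s * h x) := fun s =>
    (Real.continuous_exp.comp (continuous_const.mul hh)).measurable
  have hkm : ∀ s : ℝ, Measurable fun x => h x * Real.exp (s * h x) := fun s =>
    hh.measurable.mul (hwm s)
  have hwC : ∀ s x, |Real.exp (s * h x)| ≤ Real.exp (|s| * K) := fun s x => by
    rw [abs_of_pos (Real.exp_pos _)]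
    exact hup s x
  have hkC : ∀ s x, |h x * Real.exp (s * h x)| ≤ K * Real.exp (|s| * K) := fun s x => by
    rw [abs_mul, abs_of_nonneg (h0 x)]
    exact mul_le_mul (hK x) (hwC s x) (abs_nonneg _) hK0
  -- the forms
  have hb : ∀ s : ℝ, ∃ b : H →L[ℝ] H →L[ℝ] ℝ,
      ∀ u v, b u v = ∫ x, Real.exp (s * h x) * (i u x * i v x) ∂μ := by
    intro s
    obtain ⟨B, hB⟩ := hMul M μ (fun x => Real.exp (s * h x)) (hwm s) _ (hwC s)
    refine ⟨B.bilinearComp i i, fun u v => ?_⟩
    rw [ContinuousLinearMap.bilinearComp_apply, hB]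
  have hk : ∀ s : ℝ, ∃ k : H →L[ℝ] H →L[ℝ] ℝ,
      ∀ u v, k u v = ∫ x, h x * Real.exp (s * h x) * (i u x * i v x) ∂μ := by
    intro s
    obtain ⟨B, hB⟩ := hMul M μ (fun x => h x * Real.exp (s * h x)) (hkm s) _ (hkC s)
    refine ⟨B.bilinearComp i i, fun u v => ?_⟩
    rw [ContinuousLinearMap.bilinearComp_apply, hB]
  choose b hb using hb
  choose k hk using hk
  -- comparison with the norm
  have hbu : ∀ s v, b s v v ≤ Real.exp (|s| * K) * ‖i v‖ ^ 2 := by
    intro s v
    rw [hb, norm_eq, ← integral_const_mul]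
    exact mono_w (hwm s) (hwC s) measurable_const (C' := Real.exp (|s| * K))
      (fun x => by rw [abs_of_pos (Real.exp_pos _)]) (hup s) (i v)
  have hbl : ∀ s v, Real.exp (-(|s| * K)) * ‖i v‖ ^ 2 ≤ b s v v := by
    intro s v
    rw [hb, norm_eq, ← integral_const_mul]
    exact mono_w measurable_const (C := Real.exp (-(|s| * K)))
      (fun x => by rw [abs_of_pos (Real.exp_pos _)]) (hwm s) (hwC s) (hlo s) (i v)
  have hnb : ∀ s v, 0 ≤ b s v v := fun s v =>
    (mul_nonneg (Real.exp_pos _).le (sq_nonneg _)).trans (hbl s v)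
  -- multiplying the functionals
  have hsc : ∀ (Q : ℝ), 0 ≤ Q → ∀ (N : ℕ) (l : Fin N → H →L[ℝ] ℝ) (v : H),
      ∑ j, ((√Q • l j) v) ^ 2 = Q * ∑ j, (l j v) ^ 2 := by
    intro Q hQ N l v
    rw [Finset.mul_sum]
    refine Finset.sum_congr rfl fun j _ => ?_
    rw [smul_apply, smul_eq_mul, mul_pow, Real.sq_sqrt hQ]
  obtain ⟨C, hC⟩ := hCy.wy
  refine ⟨b, k, K, hb, hk, ?_, ?_, ?_, ?_, ?_, ?_, ?_⟩
  · intro s
    have hQ0 : 0 < Real.exp (|s| * K) := Real.exp_pos _
    have hE0 : 0 < Real.exp (-(|s| * K)) := Real.exp_pos _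
    have hsK : 0 ≤ |s| * K := mul_nonneg (abs_nonneg s) hK0
    refine ⟨hCy.sa, ?_, hCy.na, hnb s, ⟨Real.exp (-(|s| * K)), hE0, ?_⟩, ?_, ?_⟩
    · intro u v
      rw [hb, hb]
      refine integral_congr_ae (Eventually.of_forall fun x => ?_)
      simp only
      ring
    · intro v
      have h1 := hbl s v
      have h2 := hCy.na v
      have h3 : Real.exp (-(|s| * K)) ≤ 1 := Real.exp_le_one_iff.2 (by linarith)
      have h4 : Real.exp (-(|s| * K)) * a v v ≤ 1 * a v v := mul_le_mul_of_nonneg_right h3 h2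
      rw [hCy.nm v, mul_add]
      linarith
    · intro ε hε
      obtain ⟨ε', hε'⟩ : ∃ ε' : ℝ, ε' = min 1 (ε * Real.exp (-(|s| * K))) := ⟨_, rfl⟩
      have e1 : 0 < ε' := by rw [hε']; exact lt_min one_pos (by positivity)
      have e2 : ε' ≤ 1 := by rw [hε']; exact min_le_left _ _
      have e3 : Real.exp (|s| * K) * ε' ≤ ε := by
        have h1 : ε' ≤ ε * Real.exp (-(|s| * K)) := by rw [hε']; exact min_le_right _ _
        have h2 := mul_le_mul_of_nonneg_left h1 hQ0.le
        have h3 : Real.exp (|s| * K) * (ε * Real.exp (-(|s| * K))) = ε := by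
          rw [Real.exp_neg]
          field_simp
        linarith
      obtain ⟨N, l, -, hl⟩ := hC ε' e1 e2
      refine ⟨N, fun j => √(Real.exp (|s| * K)) • l j, fun v => ?_⟩
      rw [hsc _ hQ0.le]
      have h1 := hbu s v
      have h2 := mul_le_mul_of_nonneg_left (hl v) hQ0.le
      have h3 : Real.exp (|s| * K) * ε' * a v v ≤ ε * a v v :=
        mul_le_mul_of_nonneg_right e3 (hCy.na v)
      have h4 : a v v ≤ ‖v‖ ^ 2 := by
        rw [hCy.nm v]
        linarith [sq_nonneg ‖i v‖]
      have h5 := mul_le_mul_of_nonneg_left h4 hε.le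
      have h6 : Real.exp (|s| * K) * (ε' * a v v + ∑ j, (l j v) ^ 2) =
          Real.exp (|s| * K) * ε' * a v v + Real.exp (|s| * K) * ∑ j, (l j v) ^ 2 := by ring
      linarith
    · obtain ⟨χ, hχ, -, hχ2⟩ := hBmp L hL
      obtain ⟨e, he1, he2, -⟩ := hCy.k2 χ hχ
      refine ⟨e, fun m m' => ?_⟩
      rw [hb]
      have h1 : ∫ x, Real.exp (s * h x) * (i (e m) x * i (e m') x) ∂μ =
          ∫ x, i (e m) x * i (e m') x ∂μ := by
        refine integral_congr_ae ?_
        filter_upwards [he2 m] with x hx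
        by_cases hz : i (e m) x = 0
        · rw [hz]; ring
        · rw [hx hz, mul_zero, Real.exp_zero, one_mul]
      rw [h1, ← inner_eq, he1, hχ2]
  · intro R
    refine ⟨C * Real.exp (|R| * K), fun s hs ε hε hε1 => ?_⟩
    have hQ0 : 0 < Real.exp (|R| * K) := Real.exp_pos _
    have hQ1 : 1 ≤ Real.exp (|R| * K) := Real.one_le_exp (mul_nonneg (abs_nonneg R) hK0)
    have hsR : |s| ≤ |R| := hs.trans (le_abs_self R)
    have hQs : Real.exp (|s| * K) ≤ Real.exp (|R| * K) :=
      Real.exp_le_exp.2 (mul_le_mul_of_nonneg_right hsR hK0)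
    obtain ⟨N, l, hN, hl⟩ := hC (ε / Real.exp (|R| * K)) (by positivity) (by
      rw [div_le_one hQ0]
      linarith)
    refine ⟨N, fun j => √(Real.exp (|R| * K)) • l j, ?_, fun v => ?_⟩
    · rwa [div_div_eq_mul_div] at hN
    · rw [hsc _ hQ0.le]
      have h1 := hbu s v
      have h2 := mul_le_mul_of_nonneg_right hQs (sq_nonneg ‖i v‖)
      have h3 := mul_le_mul_of_nonneg_left (hl v) hQ0.le
      have h4 : Real.exp (|R| * K) * (ε / Real.exp (|R| * K) * a v v + ∑ j, (l j v) ^ 2) =
          ε * a v v + Real.exp (|R| * K) * ∑ j, (l j v) ^ 2 := by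
        field_simp
      linarith
  · intro s u v
    rw [hk, hk]
    refine integral_congr_ae (Eventually.of_forall fun x => ?_)
    simp only
    ring
  · intro s v
    constructor
    · rw [hk]
      exact integral_nonneg fun x =>
        mul_nonneg (mul_nonneg (h0 x) (Real.exp_pos _).le) (mul_self_nonneg _)
    · rw [hk, hb, ← integral_const_mul]
      have e : ∀ x, K * (Real.exp (s * h x) * (i v x * i v x)) =
          K * Real.exp (s * h x) * (i v x * i v x) := fun x => by ring
      simp_rw [e]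
      refine mono_w (hkm s) (hkC s) (measurable_const.mul (hwm s))
        (C' := K * Real.exp (|s| * K)) ?_ (fun x => ?_) (i v)
      · intro x
        show |K * Real.exp (s * h x)| ≤ _
        rw [abs_mul, abs_of_nonneg hK0]
        exact mul_le_mul_of_nonneg_left (hwC s x) hK0
      · show h x * Real.exp (s * h x) ≤ K * Real.exp (s * h x)
        exact mul_le_mul_of_nonneg_right (hK x) (Real.exp_pos _).le
  · intro s t v hst
    rw [hb, hb]
    exact mono_w (hwm s) (hwC s) (hwm t) (hwC t) (fun x => Real.exp_le_exp.2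
      (mul_le_mul_of_nonneg_right hst (h0 x))) (i v)
  · intro s t v hst
    rw [hb, hb, ← integral_const_mul]
    have e : ∀ x, Real.exp (K * (t - s)) * (Real.exp (s * h x) * (i v x * i v x)) =
        Real.exp (K * (t - s)) * Real.exp (s * h x) * (i v x * i v x) := fun x => by ring
    simp_rw [e]
    refine mono_w (hwm t) (hwC t) (measurable_const.mul (hwm s))
      (C' := Real.exp (K * (t - s)) * Real.exp (|s| * K)) ?_ (fun x => ?_) (i v)
    · intro x
      show |Real.exp (K * (t - s)) * Real.exp (s * h x)| ≤ _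
      rw [abs_mul, abs_of_pos (Real.exp_pos (K * (t - s)))]
      exact mul_le_mul_of_nonneg_left (hwC s x) (Real.exp_pos _).le
    · show Real.exp (t * h x) ≤ Real.exp (K * (t - s)) * Real.exp (s * h x)
      rw [← Real.exp_add]
      apply Real.exp_le_exp.2
      have h1 := mul_le_mul_of_nonneg_right (hK x) (sub_nonneg.2 hst)
      linarith
  · intro s τ v
    rw [hb, hb, hk, ← integral_const_mul, ← integral_add (int_w (hwm s) (hwC s) (i v))
      ((int_w (hkm s) (hkC s) (i v)).const_mul τ)]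
    refine integral_mono ((int_w (hwm s) (hwC s) (i v)).add
      ((int_w (hkm s) (hkC s) (i v)).const_mul τ)) (int_w (hwm (s + τ)) (hwC (s + τ)) (i v))
      fun x => ?_
    simp only
    have h1 : Real.exp (s * h x) * (τ * h x + 1) ≤ Real.exp ((s + τ) * h x) := by
      rw [add_mul, Real.exp_add]
      exact mul_le_mul_of_nonneg_left (Real.add_one_le_exp _) (Real.exp_pos _).le
    have h2 := mul_le_mul_of_nonneg_right h1 (mul_self_nonneg (i v x))
    linarith

end Pool.Agent.Y363.QE
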